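import Pool.Agent.W677.MarP
import Pool.Agent.W677.MarGa
import Pool.Agent.W677.MarF3

set_option autoImplicit false

/-!
# MP_16b0ee_an: the Marshall bound for the whole class `Σ` and all exponents `a < 1 / 16`

For every `0 < a < 1 / 16`, every `ψ` in the class `Σ` (no further condition) and every `R > 1`,
`∫ exp (a |h(Rζ)|² / log (R² / (R² - 1))) ds ≤ 1 / (1 - 16 a)`, where `h = log ψ'`.

(The Bloch seminorm of `h` is at most `6`, which gives this for `a < 1 / 36` only.)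

The proof. Let `H(w) = h(1 / w)` for `|w| < 1`.
1. `|(1 - |w|²) w H'(w) - 2 |w|²| ≤ 4 |w|` (`kbound`). This follows from Bieberbach's inequality
   `|a₂| ≤ 2` for Moebius transforms of `ψ` with a pole on a circle, and from the maximum principle
   for a harmonic function, which removes the effect of the pole of `ψ` at infinity.
2. For a complex number `t` let `G` be the mean of `exp (Re (conj t H))` on `|w| = r`, as a function
   of `s = log r`. Then `G'' = |t|² ∫ |w H'|² exp (Re (conj t H))`, and, since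
   `conj t ∫ w H' exp (Re (conj t H))` is real, it is equal to `G'`. So 1. gives the inequality
   `G'' ≤ |t|² (16 x - 4 x²) / (1 - x)² G + (4 x / (1 - x)) Re t G'`, with `x = r²`, which has the
   supersolution `(1 - x) ^ (- 4 |t|²)`. Therefore the mean of `exp (Re (conj t H))` is at most
   `(1 - r²) ^ (- 4 |t|²)`, for all complex `t` (`exp_mom`).
3. A Gaussian average over `t` gives the statement.
-/

namespace Pool.Agent.Results.MP_16b0ee_an.MarshallAllSigma

open Filter Topology MeasureTheory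

/-- `ψ` belongs to `Σ`, and `h` is the branch of `log ψ'` that vanishes at infinity. -/
def InSigma (ψ h : ℂ → ℂ) : Prop :=
  DifferentiableOn ℂ ψ {z : ℂ | 1 < ‖z‖} ∧ Set.InjOn ψ {z : ℂ | 1 < ‖z‖} ∧
    (∃ b : ℂ, Tendsto (fun z => ψ z - z) (Bornology.cobounded ℂ) (𝓝 b)) ∧
    DifferentiableOn ℂ h {z : ℂ | 1 < ‖z‖} ∧ (∀ z : ℂ, 1 < ‖z‖ → Complex.exp (h z) = deriv ψ z) ∧
    Tendsto h (Bornology.cobounded ℂ) (𝓝 0)

open Pool.Agent.W677.Mar in
/-- the disc version -/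
theorem disc {Y H : ℂ → ℂ} (S : Sg Y H) {a r : ℝ} (ha0 : 0 < a) (ha : a < 1 / 16) (hr0 : 0 < r)
    (hr1 : r < 1) : ∫ θ in (0 : ℝ)..(2 * Real.pi),
      Real.exp (a * ‖H (pt r θ)‖ ^ 2 / lam (r ^ 2)) ≤ 2 * Real.pi * (1 / (1 - 16 * a)) := by
  have hpi := Real.pi_pos
  have hx1 : r ^ 2 < 1 := pow_lt_one₀ hr0.le hr1 two_ne_zero
  obtain ⟨L, hL⟩ : ∃ L, L = lam (r ^ 2) := ⟨_, rfl⟩
  have hL0 : 0 < L := hL ▸ lam_pos (by positivity) hx1
  rw [← hL]
  obtain ⟨b, hb⟩ : ∃ b, b = L / (4 * a) := ⟨_, rfl⟩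
  have hb0 : 0 < b := by rw [hb]; positivity
  have hbL : 0 < b - 4 * L := by
    have : b - 4 * L = L * (1 - 16 * a) / (4 * a) := by
      rw [hb]
      field_simp
      ring
    rw [this]
    apply div_pos _ (by positivity)
    apply mul_pos hL0
    linarith
  have hmem : ∀ θ : ℝ, pt r θ ∈ Metric.ball (0 : ℂ) 1 := by
    intro θ
    rw [mem_ball_zero_iff, norm_pt r θ hr0.le]
    exact hr1
  have hc : Continuous fun θ : ℝ => H (pt r θ) := cont_circ S.dH hr0.le hr1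
  have hM : ∀ θ : ℝ, ‖H (pt r θ)‖ ≤ L := by
    intro θ
    have := goluzin S (hmem θ)
    rw [norm_pt r θ hr0.le] at this
    rw [hL]
    exact this
  have hB : ∀ t : ℂ, ∫ θ in (0 : ℝ)..(2 * Real.pi),
      Real.exp ((starRingEnd ℂ) t * H (pt r θ)).re ≤ 2 * Real.pi * Real.exp (4 * ‖t‖ ^ 2 * L) := by
    intro t
    rw [hL]
    exact exp_mom S t hr0 hr1
  have e1 : (fun t : ℂ => Real.exp (-b * ‖t‖ ^ 2) * (2 * Real.pi * Real.exp (4 * ‖t‖ ^ 2 * L))) =
      fun t : ℂ => 2 * Real.pi * Real.exp (-(b - 4 * L) * ‖t‖ ^ 2) := by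
    funext t
    have : Real.exp (-(b - 4 * L) * ‖t‖ ^ 2) =
        Real.exp (-b * ‖t‖ ^ 2) * Real.exp (4 * ‖t‖ ^ 2 * L) := by
      rw [← Real.exp_add]
      congr 1
      ring
    rw [this]
    ring
  have hg := gauss0 hbL
  have h1 := gauss_avg hc hM hb0 hB (by
    rw [e1]
    exact hg.1.const_mul _)
  rw [e1, integral_const_mul, hg.2] at h1
  have e2 : ∀ θ : ℝ, a * ‖H (pt r θ)‖ ^ 2 / L = ‖H (pt r θ)‖ ^ 2 / (4 * b) := by
    intro θ
    rw [hb]
    field_simp
  simp only [e2]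
  refine h1.trans (le_of_eq ?_)
  have h2 : (1 : ℝ) - 16 * a ≠ 0 := by linarith
  have h3 : b - 4 * L = L * (1 - 16 * a) / (4 * a) := by
    rw [hb]
    field_simp
    ring
  rw [h3, hb]
  field_simp

/-- **The Marshall bound for the whole class `Σ` and `a < 1 / 16`, with an explicit constant.** -/
theorem result (a : ℝ) (ha0 : 0 < a) (ha : a < 1 / 16) (R : ℝ) (hR : 1 < R) (ψ h : ℂ → ℂ)
    (hS : InSigma ψ h) :
    (1 / (2 * Real.pi)) * ∫ θ in (0 : ℝ)..(2 * Real.pi),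
      Real.exp (a * ‖h ((R : ℂ) * Complex.exp ((θ : ℂ) * Complex.I))‖ ^ 2
        / Real.log (R ^ 2 / (R ^ 2 - 1))) ≤ 1 / (1 - 16 * a) := by
  have hpi := Real.pi_pos
  obtain ⟨hψ, hi, hb, hh, he, h0⟩ := hS
  have S := Pool.Agent.W677.Mar.toSg hψ hi hb hh he h0
  have hR0 : 0 < R := by linarith
  have hR2 : 0 < R ^ 2 - 1 := by nlinarith
  obtain ⟨r, hr⟩ : ∃ r, r = R⁻¹ := ⟨_, rfl⟩
  have hr0 : 0 < r := by rw [hr]; positivity
  have hr1 : r < 1 := by rw [hr]; exact inv_lt_one_of_one_lt₀ hR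
  obtain ⟨q, hq⟩ : ∃ q, q = R ^ 2 / (R ^ 2 - 1) := ⟨_, rfl⟩
  rw [← hq]
  have hlam : Pool.Agent.W677.Mar.lam (r ^ 2) = Real.log q := by
    have : 1 - r ^ 2 = q⁻¹ := by
      rw [hq, hr]
      field_simp
    rw [Pool.Agent.W677.Mar.lam, this, Real.log_inv, neg_neg]
  have h1 := disc S ha0 ha hr0 hr1
  rw [hlam] at h1
  have h4 : (1 / (2 * Real.pi)) * (2 * Real.pi * (1 / (1 - 16 * a))) = 1 / (1 - 16 * a) := by
    field_simp
  rw [← h4]
  refine mul_le_mul_of_nonneg_left (le_trans (le_of_eq ?_) h1) (by positivity)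
  -- change of variable θ → -θ
  set F : ℝ → ℝ := fun θ => Real.exp (a * ‖Pool.Agent.W677.Mar.hat h 0
    (Pool.Agent.W677.Mar.pt r θ)‖ ^ 2 / Real.log q) with hF
  have hper : Function.Periodic F (2 * Real.pi) := by
    intro θ
    simp only [hF, Pool.Agent.W677.Mar.pt_periodic r θ]
  have h2 : ∀ θ : ℝ, Real.exp (a * ‖h ((R : ℂ) * Complex.exp ((θ : ℂ) * Complex.I))‖ ^ 2 /
      Real.log q) = F (-θ) := by
    intro θ
    simp only [hF]
    have hne : Pool.Agent.W677.Mar.pt r (-θ) ≠ 0 := by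
      rw [← norm_pos_iff, Pool.Agent.W677.Mar.norm_pt r _ hr0.le]
      exact hr0
    rw [Pool.Agent.W677.Mar.hat_ne _ _ hne]
    have e1 : (Pool.Agent.W677.Mar.pt r (-θ))⁻¹ = (R : ℂ) * Complex.exp ((θ : ℂ) * Complex.I) := by
      simp only [Pool.Agent.W677.Mar.pt, circleMap, zero_add, hr]
      rw [mul_inv, ← Complex.exp_neg]
      push_cast
      rw [inv_inv]
      congr 2
      ring
    rw [e1]
  simp only [h2]
  rw [intervalIntegral.integral_comp_neg F]
  have h3 := hper.intervalIntegral_add_eq (-(2 * Real.pi)) 0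
  rw [neg_add_cancel, zero_add] at h3
  rw [neg_zero]
  exact h3

end Pool.Agent.Results.MP_16b0ee_an.MarshallAllSigma
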