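import Pool.Agent.W677.MarT

set_option autoImplicit false

/-!
# MP_16b0ee_an: the strong Marshall bound at Bloch distance `β` from the maps of finite variation

Let `β ≥ 1` and `a β² < 1`. The integral of the question is bounded by a constant, for all `R > 1` and
for all `ψ` in the class `Σ` whose `h = log ψ'` is the sum of

* a part `h₁` of finite variation, `z h₁' = ∑ k_j (P_j - 1)`, where the `P_j` are holomorphic outside
  of the unit disc, with positive real part and `P_j(∞) = 1`, and `∑ |k_j| ≤ K`,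
* a part `b` with `|b| ≤ A`,
* a part `e` with Bloch seminorm at most `β`: `(|z|² - 1) |e'(z)| ≤ β`.

For `β = 1` this is the full range `0 < a < 1` of the question. `K` may grow as `R → 1`, like
`A (R² / (R² - 1)) ^ x`, where `16 a (16 - β²) x < 15 (1 - a β²)`; for `β = 1` this means
`x < (1 - a) / (16 a)`.

For `β = 1` the class contains (proved below) the maps with `(|z|² - 1) |h'(z)| ≤ 1` (Becker's class),
for which `K = 0`, the convex maps, and more generally the maps of boundary rotation `k π` (for example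
the maps onto the exterior of polygons), for which `K = k / 2`, and all maps of `Σ` whose `h` differs
from such an `h₁` by at most `1` in the Bloch seminorm.

The proof. Let `L = log (R² / (R² - 1))`. By a Gaussian average over `t` it is enough to bound the
mean of `exp (Re (conj t h))` by a constant (which is exponential in `|t|`) times
`exp ((1 + δ) |t|² β² L / 4)`.
1. For every `ψ` in `Σ` this mean is at most `exp (4 |t|² L)` and `|h| ≤ L`.
2. Dyadic radii `r_j`: the increments of `h - e` between `r_j` and the circle are bounded, unless the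
   Poisson integral of the variation is large at one of the scales `i > j`. The last scale `j` where
   this happens gives a partition of the circle, and the weight of the piece `j` is at most `K 2 ^ (-j)`
   on average; the weight is a positive harmonic function on the circle of radius `r_j`.
3. The localised exponential moments of the increment of `e` from `r_j` to the circle, with such
   weights, are at most `exp (C + C |t| + β² |t|² (L - L_j) / 4)`, where `L_j` is the value of `L` for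
   the radius `r_j`. This is a differential inequality for the means, and it loses only a constant
   factor, since the weight varies slowly (Harnack).
4. On the piece `j` one uses `|h| ≤ L_j` at the radius `r_j`, and for the first scale
   `L_j ≈ s L`, `s` small, the bound in 1.
-/

namespace Pool.Agent.Results.MP_16b0ee_an.MarshallBlochDistance

open Filter Topology

/-- `f` is holomorphic on `|z| > 1` and tends to `c` at infinity. -/
def HolWithValue (f : ℂ → ℂ) (c : ℂ) : Prop :=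
  DifferentiableOn ℂ f {z : ℂ | 1 < ‖z‖} ∧ Tendsto f (Bornology.cobounded ℂ) (𝓝 c)

/-- `ψ` belongs to `Σ`, and `h` is the branch of `log ψ'` that vanishes at infinity. -/
def InSigma (ψ h : ℂ → ℂ) : Prop :=
  DifferentiableOn ℂ ψ {z : ℂ | 1 < ‖z‖} ∧ Set.InjOn ψ {z : ℂ | 1 < ‖z‖} ∧
    (∃ b : ℂ, Tendsto (fun z => ψ z - z) (Bornology.cobounded ℂ) (𝓝 b)) ∧
    HolWithValue h 0 ∧ ∀ z : ℂ, 1 < ‖z‖ → Complex.exp (h z) = deriv ψ z

/-- `z h' = ∑ k_j (P_j - 1) + z b' + z e'` on `|z| > 1`, where `∑ |k_j| ≤ K`, all `P_j` are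
holomorphic with positive real part and `P_j(∞) = 1`, `b` is holomorphic with `|b| ≤ A`, and `e` is
holomorphic with `(|z|² - 1) |e'(z)| ≤ β`. -/
def Decomposition (K A β : ℝ) (h : ℂ → ℂ) : Prop :=
  ∃ (n : ℕ) (k : Fin n → ℂ) (P : Fin n → ℂ → ℂ) (d d' : ℂ) (b e : ℂ → ℂ),
    ∑ j, ‖k j‖ ≤ K ∧ (∀ j, HolWithValue (P j) 1 ∧ ∀ z : ℂ, 1 < ‖z‖ → 0 < (P j z).re) ∧
    HolWithValue b d ∧ (∀ z : ℂ, 1 < ‖z‖ → ‖b z‖ ≤ A) ∧
    HolWithValue e d' ∧ (∀ z : ℂ, 1 < ‖z‖ → (‖z‖ ^ 2 - 1) * ‖deriv e z‖ ≤ β) ∧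
    ∀ z : ℂ, 1 < ‖z‖ → z * deriv h z = ∑ j, k j * (P j z - 1) + z * deriv b z + z * deriv e z

theorem hol_const (c : ℂ) : HolWithValue (fun _ => c) c :=
  ⟨differentiableOn_const c, tendsto_const_nhds⟩

/-- Becker's class: `(|z|² - 1) |h'| ≤ 1`. -/
theorem of_becker {ψ h : ℂ → ℂ} {A : ℝ} (hA : 0 ≤ A) (hS : InSigma ψ h)
    (hb : ∀ z : ℂ, 1 < ‖z‖ → (‖z‖ ^ 2 - 1) * ‖deriv h z‖ ≤ 1) : Decomposition 0 A 1 h := by
  refine ⟨0, fun _ => 0, fun _ _ => 0, 0, 0, fun _ => 0, h, by simp, fun j => j.elim0, hol_const 0,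
    fun z _ => by simpa using hA, hS.2.2.2.1, hb, fun z _ => by simp⟩

/-- Maps of bounded boundary rotation: `1 + z ψ'' / ψ'` is a combination of two functions of positive
real part, with coefficients `k / 4 + 1 / 2` and `- (k / 4 - 1 / 2)`; for `k = 2` these are the convex
maps. Any further part `e` is allowed. -/
theorem of_boundaryRotation {h P₁ P₂ e : ℂ → ℂ} {k β A : ℝ} {d : ℂ} (hk : 2 ≤ k) (hA : 0 ≤ A)
    (h₁ : HolWithValue P₁ 1) (p₁ : ∀ z : ℂ, 1 < ‖z‖ → 0 < (P₁ z).re)
    (h₂ : HolWithValue P₂ 1) (p₂ : ∀ z : ℂ, 1 < ‖z‖ → 0 < (P₂ z).re)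
    (he : HolWithValue e d) (eb : ∀ z : ℂ, 1 < ‖z‖ → (‖z‖ ^ 2 - 1) * ‖deriv e z‖ ≤ β)
    (heq : ∀ z : ℂ, 1 < ‖z‖ → 1 + z * deriv h z =
      (k / 4 + 1 / 2 : ℝ) * P₁ z - (k / 4 - 1 / 2 : ℝ) * P₂ z + z * deriv e z) :
    Decomposition (k / 2) A β h := by
  refine ⟨2, ![((k / 4 + 1 / 2 : ℝ) : ℂ), -((k / 4 - 1 / 2 : ℝ) : ℂ)], ![P₁, P₂], 0, d,
    fun _ => 0, e, ?_, ?_, hol_const 0, fun z _ => by simpa using hA, he, eb, fun z hz => ?_⟩
  · rw [Fin.sum_univ_two]
    simp only [Matrix.cons_val_zero, Matrix.cons_val_one, norm_neg, Complex.norm_real]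
    rw [Real.norm_of_nonneg (by linarith), Real.norm_of_nonneg (by linarith)]
    linarith
  · intro j
    fin_cases j
    · exact ⟨h₁, p₁⟩
    · exact ⟨h₂, p₂⟩
  · have h3 := heq z hz
    rw [Fin.sum_univ_two]
    simp only [Matrix.cons_val_zero, Matrix.cons_val_one, deriv_const]
    push_cast at h3 ⊢
    linear_combination h3

/-- **Strong Marshall bound at Bloch distance `β` from the maps of finite variation.** -/
theorem result (a β x A : ℝ) (ha : 0 < a) (hβ : 1 ≤ β) (haβ : a * β ^ 2 < 1) (hx0 : 0 ≤ x)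
    (hx : 16 * a * (16 - β ^ 2) * x < 15 * (1 - a * β ^ 2)) (hA : 0 ≤ A) :
    ∃ C : ℝ, ∀ (R : ℝ) (ψ h : ℂ → ℂ), 1 < R → InSigma ψ h →
      Decomposition (A * (R ^ 2 / (R ^ 2 - 1)) ^ x) A β h →
      (1 / (2 * Real.pi)) * ∫ θ in (0 : ℝ)..(2 * Real.pi),
        Real.exp (a * ‖h ((R : ℂ) * Complex.exp ((θ : ℂ) * Complex.I))‖ ^ 2
          / Real.log (R ^ 2 / (R ^ 2 - 1))) ≤ C := by
  obtain ⟨C, hC⟩ := Pool.Agent.W677.Mar.main_ext2 a A β x ha hβ haβ hA hx0 hx
  exact ⟨C, fun R ψ h hR hS hD => hC R ψ h hR hS.1 hS.2.1 hS.2.2.1 hS.2.2.2.1.1 hS.2.2.2.2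
    hS.2.2.2.1.2 hD⟩

end Pool.Agent.Results.MP_16b0ee_an.MarshallBlochDistance
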