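import Pool.Agent.W677.MarF3

set_option autoImplicit false

/-!
# MP_16b0ee_an: the strong Marshall bound for maps of finite variation, up to small Bloch parts

For every `0 < a < 1` (the full range of the question) the integral of the question is bounded by a
constant, for all `R > 1` and for all `ψ` of the class `Σ` whose `h = log ψ'` is the sum of

* a part `h₁` of finite variation, `z h₁' = ∑ k_j (P_j - 1)`, where the `P_j` are holomorphic outside
  of the unit disc, with positive real part and `P_j(∞) = 1`, and `∑ |k_j| ≤ K`,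
* a part `h₂ = α log p` with `Re p > 0` and `|α| ≤ 1`,
* a part `h₃` with `|h₃| ≤ A`,
* a part `h₄` with Bloch seminorm at most `(1 - a) / 24`.

The constant depends on `a` and `A` only, and `K` may even grow as `R → 1`, like
`A (R² / (R² - 1)) ^ x` with `x = (1 - a)² / 20000`. (With `x = 1` this would be the whole conjecture:
the function `ψ(ρ z) / ρ` has a boundary rotation of the order of `1 / (ρ - 1)` at most.)

The class contains (proved below) the spirallike maps (in particular starlike ones), with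
`K = 1`, the close-to-convex maps, with `K = 1`, and the maps of boundary rotation `k π`, with
`K = k / 2` (in particular the convex maps, and the maps onto the exterior of polygons). All the
other parts are allowed on top of that.

The proof: by Goluzin's inequality for the class `Σ`, proved here from the area theorem,
`|h(Rζ)| ≤ log (R² / (R² - 1))`, so it is enough to bound exponential moments
`∫ exp (b |h|)`, `b < 1`, of the truncated function, where `h₂` is dealt with by the exponential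
integrability of conjugate functions, and `h₁` by a bound of its oscillation in terms of the
Poisson integral of the variation and by the geometric distribution of the points where this Poisson
integral is large. For `h₄` one uses Makarov's moment inequalities.
-/

namespace Pool.Agent.Results.MP_16b0ee_an.StrongMarshallFiniteVariation

open Filter Topology

/-- `f` is holomorphic on `|z| > 1` and tends to `c` at infinity. -/
def HolWithValue (f : ℂ → ℂ) (c : ℂ) : Prop :=
  DifferentiableOn ℂ f {z : ℂ | 1 < ‖z‖} ∧ Tendsto f (Bornology.cobounded ℂ) (𝓝 c)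

/-- `ψ` belongs to `Σ`, and `h` is the branch of `log ψ'` that vanishes at infinity. -/
def InSigma (ψ h : ℂ → ℂ) : Prop :=
  DifferentiableOn ℂ ψ {z : ℂ | 1 < ‖z‖} ∧ Set.InjOn ψ {z : ℂ | 1 < ‖z‖} ∧
    (∃ b : ℂ, Tendsto (fun z => ψ z - z) (Bornology.cobounded ℂ) (𝓝 b)) ∧
    HolWithValue h 0 ∧ ∀ z : ℂ, 1 < ‖z‖ → Complex.exp (h z) = deriv ψ z

/-- `z h' = ∑ k_j (P_j - 1) + α z p' / p + z b' + z e'` on `|z| > 1`, where `∑ |k_j| ≤ K`, all `P_j`
and `p` are holomorphic with positive real part, also at infinity, `P_j(∞) = 1`, `|α| ≤ 1`, `b` is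
holomorphic with `|b| ≤ A`, and `e` is holomorphic with `(|z|² - 1) |e'(z)| ≤ ε`. -/
def Decomposition (K A ε : ℝ) (h : ℂ → ℂ) : Prop :=
  ∃ (n : ℕ) (k : Fin n → ℂ) (P : Fin n → ℂ → ℂ) (α c d d' : ℂ) (p b e : ℂ → ℂ),
    ∑ j, ‖k j‖ ≤ K ∧ (∀ j, HolWithValue (P j) 1 ∧ ∀ z : ℂ, 1 < ‖z‖ → 0 < (P j z).re) ∧
    ‖α‖ ≤ 1 ∧ HolWithValue p c ∧ 0 < c.re ∧ (∀ z : ℂ, 1 < ‖z‖ → 0 < (p z).re) ∧
    HolWithValue b d ∧ (∀ z : ℂ, 1 < ‖z‖ → ‖b z‖ ≤ A) ∧
    HolWithValue e d' ∧ (∀ z : ℂ, 1 < ‖z‖ → (‖z‖ ^ 2 - 1) * ‖deriv e z‖ ≤ ε) ∧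
    ∀ z : ℂ, 1 < ‖z‖ → z * deriv h z =
      ∑ j, k j * (P j z - 1) + α * (z * deriv p z / p z) + z * deriv b z + z * deriv e z

theorem hol_const (c : ℂ) : HolWithValue (fun _ => c) c :=
  ⟨differentiableOn_const c, tendsto_const_nhds⟩

/-- Maps of bounded boundary rotation: `1 + z ψ'' / ψ'` is a combination of two functions of positive
real part, with coefficients `k / 4 + 1 / 2` and `- (k / 4 - 1 / 2)`; for `k = 2` these are the convex
maps. -/
theorem of_boundaryRotation {h P₁ P₂ : ℂ → ℂ} {k ε A : ℝ} (hk : 2 ≤ k) (hε : 0 ≤ ε) (hA : 0 ≤ A)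
    (h₁ : HolWithValue P₁ 1) (p₁ : ∀ z : ℂ, 1 < ‖z‖ → 0 < (P₁ z).re)
    (h₂ : HolWithValue P₂ 1) (p₂ : ∀ z : ℂ, 1 < ‖z‖ → 0 < (P₂ z).re)
    (heq : ∀ z : ℂ, 1 < ‖z‖ → 1 + z * deriv h z =
      (k / 4 + 1 / 2 : ℝ) * P₁ z - (k / 4 - 1 / 2 : ℝ) * P₂ z) :
    Decomposition (k / 2) A ε h := by
  refine ⟨2, ![((k / 4 + 1 / 2 : ℝ) : ℂ), -((k / 4 - 1 / 2 : ℝ) : ℂ)], ![P₁, P₂], 0, 1, 0, 0,
    fun _ => 1, fun _ => 0, fun _ => 0, ?_, ?_, by simp, hol_const 1, by simp,
    fun z _ => by simp, hol_const 0, fun z _ => by simpa using hA, hol_const 0, fun z _ => ?_,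
    fun z hz => ?_⟩
  · rw [Fin.sum_univ_two]
    simp only [Matrix.cons_val_zero, Matrix.cons_val_one, norm_neg, Complex.norm_real]
    rw [Real.norm_of_nonneg (by linarith), Real.norm_of_nonneg (by linarith)]
    linarith
  · intro j
    fin_cases j
    · exact ⟨h₁, p₁⟩
    · exact ⟨h₂, p₂⟩
  · simpa using hε
  · have h3 := heq z hz
    rw [Fin.sum_univ_two]
    simp only [Matrix.cons_val_zero, Matrix.cons_val_one, deriv_const]
    push_cast at h3 ⊢
    linear_combination h3

/-- Close-to-convex maps: `Re (z ψ' / G) > 0` up to a rotation, with `G` starlike. In terms of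
`p = z ψ' / G` and `P = z G' / G`. -/
theorem of_closeToConvex {h p P : ℂ → ℂ} {c : ℂ} {ε A : ℝ} (hε : 0 ≤ ε) (hA : 0 ≤ A)
    (hp : HolWithValue p c) (hc : 0 < c.re) (pp : ∀ z : ℂ, 1 < ‖z‖ → 0 < (p z).re)
    (hP : HolWithValue P 1) (pP : ∀ z : ℂ, 1 < ‖z‖ → 0 < (P z).re)
    (heq : ∀ z : ℂ, 1 < ‖z‖ → z * deriv h z = z * deriv p z / p z + (P z - 1)) :
    Decomposition 1 A ε h := by
  refine ⟨1, ![1], ![P], 1, c, 0, 0, p, fun _ => 0, fun _ => 0, by simp, ?_, by simp, hp, hc, pp,
    hol_const 0, fun z _ => by simpa using hA, hol_const 0, fun z _ => by simpa using hε,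
    fun z hz => ?_⟩
  · intro j
    fin_cases j
    exact ⟨hP, pP⟩
  · rw [heq z hz]
    simp
    ring

/-- Spirallike maps: `Re (exp (i γ) z ψ' / ψ) > 0`; for `γ = 0` these are the starlike maps. -/
theorem of_spirallike {ψ h : ℂ → ℂ} {γ ε A : ℝ} (hε : 0 ≤ ε) (hA : 0 ≤ A)
    (hγ : |γ| < Real.pi / 2) (hS : InSigma ψ h) (hn : ∀ z : ℂ, 1 < ‖z‖ → ψ z ≠ 0)
    (hs : ∀ z : ℂ, 1 < ‖z‖ → 0 < (Complex.exp (γ * Complex.I) * (z * deriv ψ z / ψ z)).re) :
    Decomposition 1 A ε h := by
  obtain ⟨hd, hi, ⟨b₀, hb₀⟩, ⟨hh, h0⟩, he⟩ := hS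
  have hopen : IsOpen {z : ℂ | 1 < ‖z‖} := isOpen_lt continuous_const continuous_norm
  have hcos : 0 < Real.cos γ := Real.cos_pos_of_mem_Ioo ⟨by linarith [(abs_lt.1 hγ).1], (abs_lt.1 hγ).2⟩
  have hE : Complex.exp (γ * Complex.I) = Real.cos γ + Real.sin γ * Complex.I := by
    rw [Complex.exp_mul_I, Complex.ofReal_cos, Complex.ofReal_sin]
  have hne : ∀ᶠ z in Bornology.cobounded ℂ, z ≠ 0 ∧ 1 < ‖z‖ := by
    have : ∀ᶠ z in Bornology.cobounded ℂ, 1 < ‖z‖ :=
      tendsto_norm_cobounded_atTop.eventually_gt_atTop 1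
    filter_upwards [this] with z hz
    refine ⟨?_, hz⟩
    intro h0
    rw [h0, norm_zero] at hz
    linarith
  -- the function `z ψ' / ψ`
  have hq : HolWithValue (fun z => z * deriv ψ z / ψ z) 1 := by
    constructor
    · exact (differentiableOn_id.mul (hd.deriv hopen)).div hd hn
    · have t1 : Tendsto (fun z => deriv ψ z) (Bornology.cobounded ℂ) (𝓝 1) := by
        have := (Complex.continuous_exp.tendsto 0).comp h0
        rw [Complex.exp_zero] at this
        refine this.congr' ?_
        filter_upwards [hne] with z hz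
        exact he z hz.2
      have t2 : Tendsto (fun z : ℂ => ψ z / z) (Bornology.cobounded ℂ) (𝓝 1) := by
        have h1 : Tendsto (fun z : ℂ => z⁻¹) (Bornology.cobounded ℂ) (𝓝 0) :=
          tendsto_inv₀_cobounded
        have h2 := (hb₀.mul h1).add_const 1
        rw [mul_zero, zero_add] at h2
        refine h2.congr' ?_
        filter_upwards [hne] with z hz
        have := hz.1
        field_simp
        ring
      have t3 := t1.div t2 one_ne_zero
      rw [div_one] at t3
      refine t3.congr' ?_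
      filter_upwards [hne] with z hz
      have h4 := hn z hz.2
      have := hz.1
      simp only [Pi.div_apply]
      field_simp
  have hcosC : (Real.cos γ : ℂ) ≠ 0 := by exact_mod_cast hcos.ne'
  have hexp0 : Complex.exp (γ * Complex.I) ≠ 0 := Complex.exp_ne_zero _
  refine ⟨1, ![Complex.exp (-(γ * Complex.I)) * Real.cos γ],
    ![fun z => (Complex.exp (γ * Complex.I) * (z * deriv ψ z / ψ z) - Real.sin γ * Complex.I) /
      Real.cos γ], 1, Complex.exp (γ * Complex.I), 0, 0,
    fun z => Complex.exp (γ * Complex.I) * (z * deriv ψ z / ψ z), fun _ => 0, fun _ => 0, ?_, ?_,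
    by simp, ⟨hq.1.const_mul _, ?_⟩, ?_, hs, hol_const 0, fun z _ => by simpa using hA,
    hol_const 0, fun z _ => by simpa using hε, fun z hz => ?_⟩
  · simp only [Finset.univ_unique, Fin.default_eq_zero, Matrix.cons_val_fin_one,
      Finset.sum_singleton, norm_mul, Complex.norm_real]
    have h1 : ‖Complex.exp (-(γ * Complex.I))‖ = 1 := by
      have := Complex.norm_exp_ofReal_mul_I (-γ)
      rw [← this]
      congr 1
      push_cast
      ring_nf
    rw [h1, one_mul, Real.norm_of_nonneg hcos.le]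
    exact Real.cos_le_one γ
  · intro j
    fin_cases j
    refine ⟨⟨?_, ?_⟩, ?_⟩
    · exact ((hq.1.const_mul _).sub_const _).div_const _
    · have h1 := ((hq.2.const_mul (Complex.exp (γ * Complex.I))).sub_const
        (Real.sin γ * Complex.I)).div_const (Real.cos γ : ℂ)
      have h2 : (Complex.exp (γ * Complex.I) * 1 - Real.sin γ * Complex.I) / Real.cos γ = 1 := by
        rw [hE]
        field_simp
        ring
      rw [h2] at h1
      exact h1
    · intro z hz
      have h1 := hs z hz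
      have h2 : ((Complex.exp (γ * Complex.I) * (z * deriv ψ z / ψ z) - Real.sin γ * Complex.I) /
          Real.cos γ).re =
          (Complex.exp (γ * Complex.I) * (z * deriv ψ z / ψ z)).re / Real.cos γ := by
        rw [Complex.div_ofReal_re, Complex.sub_re]
        simp
      show 0 < ((Complex.exp (γ * Complex.I) * (z * deriv ψ z / ψ z) - Real.sin γ * Complex.I) /
          Real.cos γ).re
      rw [h2]
      exact div_pos h1 hcos
  · have := hq.2.const_mul (Complex.exp (γ * Complex.I))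
    rwa [mul_one] at this
  · rw [hE, Complex.add_re, Complex.ofReal_re, Complex.re_ofReal_mul, Complex.I_re, mul_zero, add_zero]
    exact hcos
  · -- the identity
    have hz0 : z ≠ 0 := by
      intro h
      rw [h, norm_zero] at hz
      linarith
    have hmem : {z : ℂ | 1 < ‖z‖} ∈ 𝓝 z := hopen.mem_nhds hz
    have hψ0 := hn z hz
    have hψ' : deriv ψ z ≠ 0 := by
      rw [← he z hz]
      exact Complex.exp_ne_zero _
    have d1 : HasDerivAt ψ (deriv ψ z) z := (hd.differentiableAt hmem).hasDerivAt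
    have d2 : HasDerivAt (deriv ψ) (deriv (deriv ψ) z) z :=
      ((hd.deriv hopen).differentiableAt hmem).hasDerivAt
    have d3 : HasDerivAt h (deriv h z) z := (hh.differentiableAt hmem).hasDerivAt
    have e1 : deriv (deriv ψ) z = deriv ψ z * deriv h z := by
      have h1 := d3.cexp
      have h2 : HasDerivAt (deriv ψ) (Complex.exp (h z) * deriv h z) z := by
        refine h1.congr_of_eventuallyEq ?_
        filter_upwards [hmem] with w hw
        exact (he w hw).symm
      rw [h2.deriv, he z hz]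
    have d4 := (((hasDerivAt_id z).mul d2).div d1 hψ0).const_mul (Complex.exp (γ * Complex.I))
    have e2 : deriv (fun z => Complex.exp (γ * Complex.I) * (z * deriv ψ z / ψ z)) z =
        Complex.exp (γ * Complex.I) * (((1 * deriv ψ z + z * deriv (deriv ψ) z) * ψ z -
          z * deriv ψ z * deriv ψ z) / ψ z ^ 2) := d4.deriv
    simp only [Finset.univ_unique, Fin.default_eq_zero, Matrix.cons_val_fin_one,
      Finset.sum_singleton, deriv_const, mul_zero, add_zero, one_mul]
    rw [e2, e1]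
    have e3 : Complex.exp (-(γ * Complex.I)) = (Complex.exp (γ * Complex.I))⁻¹ := Complex.exp_neg _
    have e4 : (Real.cos γ : ℂ) + Real.sin γ * Complex.I = Complex.exp (γ * Complex.I) := hE.symm
    rw [e3]
    obtain ⟨E, hEE⟩ : ∃ E, E = Complex.exp (γ * Complex.I) := ⟨_, rfl⟩
    rw [← hEE] at e4 hexp0 ⊢
    have e5 : E⁻¹ * (Real.cos γ : ℂ) * ((E * (z * deriv ψ z / ψ z) - Real.sin γ * Complex.I) /
        Real.cos γ - 1) = z * deriv ψ z / ψ z - 1 := by
      have : (E * (z * deriv ψ z / ψ z) - Real.sin γ * Complex.I) / (Real.cos γ : ℂ) - 1 =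
          E * (z * deriv ψ z / ψ z - 1) / Real.cos γ := by
        rw [div_sub_one hcosC]
        congr 1
        linear_combination (-1 : ℂ) * e4
      rw [this]
      field_simp
    rw [e5]
    field_simp
    ring

/-- **Strong Marshall bound for maps of finite variation.** -/
theorem result (a A : ℝ) (ha0 : 0 < a) (ha : a < 1) (hA : 0 ≤ A) :
    ∃ C : ℝ, ∀ (R : ℝ) (ψ h : ℂ → ℂ), 1 < R → InSigma ψ h →
      Decomposition (A * (R ^ 2 / (R ^ 2 - 1)) ^ ((1 - a) ^ 2 / 20000)) A ((1 - a) / 24) h →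
      (1 / (2 * Real.pi)) * ∫ θ in (0 : ℝ)..(2 * Real.pi),
        Real.exp (a * ‖h ((R : ℂ) * Complex.exp ((θ : ℂ) * Complex.I))‖ ^ 2
          / Real.log (R ^ 2 / (R ^ 2 - 1))) ≤ C := by
  obtain ⟨C, hC⟩ := Pool.Agent.W677.Mar.main_ext a A ha0 ha hA
  exact ⟨C, fun R ψ h hR hS hD => hC R ψ h hR hS.1 hS.2.1 hS.2.2.1 hS.2.2.2.1.1 hS.2.2.2.2
    hS.2.2.2.1.2 hD⟩

end Pool.Agent.Results.MP_16b0ee_an.StrongMarshallFiniteVariation
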